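import Pool.Agent.TH652.COL.Cut
import Pool.Agent.W189.NF.Main

/-! The `L`-functions of the cohomology of projective varieties over number fields. -/

set_option autoImplicit false

namespace Pool.Agent.TH652.COL

open NumberField IsDedekindDomain Filter Topology Polynomial
open Pool.Agent.H921R2.TatePole (nm two_le_nm nm_summable)
open Pool.Agent.W187.UR

/-- The set `X` of homogeneous polynomials over a ring `R` in `n` variables defines a projective
scheme over `R`.  For a field `κ` with `q` elements and a homomorphism `R → κ` this is `(q - 1)`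
times the number of the points of `X` with coordinates in `κ`: the number of the nonzero solutions
of the equations. -/
noncomputable def cone {n : ℕ} {R : Type} [CommRing R] (X : Set (MvPolynomial (Fin n) R)) {κ : Type}
    [Field κ] (φ : R →+* κ) : ℕ :=
  Nat.card {u : Fin n → κ // u ≠ 0 ∧ ∀ f ∈ X, MvPolynomial.eval₂ φ u f = 0}

variable {n : ℕ} {K : Type} [Field K] [NumberField K]

/-- `α_1, …, α_N` are the eigenvalues of the geometric Frobenius at the prime `v` of `K` on `H^i(X)`,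
for a variety `X` of dimension `d`: there are finite multisets `β_k` of complex numbers of absolute
value `q_v^{k/2}`, `k = 0, …, 2d`, with `β_i = {α_1, …, α_N}`, such that for every finite extension
`κ` of the residue field of `v`, of degree `e`, the number of the points of `X` with coordinates in
`κ` is `∑ (-1)^k ∑_{z ∈ β_k} z^e`.  By the theorem of Deligne such `β_k` exist at almost all primes
if `X` is smooth, with `N` the `i`-th Betti number of `X`; for `k ≤ 2d` they are unique. -/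
def IsFrobenius (X : Set (MvPolynomial (Fin n) (𝓞 K))) (d i : ℕ)
    (v : HeightOneSpectrum (𝓞 K)) {N : ℕ} (α : Fin N → ℂ) : Prop :=
  ∃ β : ℕ → Multiset ℂ, β i = Finset.univ.val.map α ∧
    (∀ k, ∀ z ∈ β k, ‖z‖ = (Ideal.absNorm v.asIdeal : ℝ) ^ ((k : ℝ) / 2)) ∧
    ∀ (κ : Type) [Field κ] [Finite κ] (φ : 𝓞 K →+* κ) (e : ℕ), RingHom.ker φ = v.asIdeal →
      Nat.card κ = Ideal.absNorm v.asIdeal ^ e →
      (cone X φ : ℂ) = ((Ideal.absNorm v.asIdeal : ℂ) ^ e - 1) *
          ∑ k ∈ Finset.range (2 * d + 1), (-1 : ℂ) ^ k * ((β k).map (fun z => z ^ e)).sum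

/-- The polynomials `B v` are the Euler factors of `L(H^i(X), s)`: `B_v(z) = ∏ (1 - α_j z)` for almost
all primes `v` of `K`, with the eigenvalues `α_j` of Frobenius, and at the other primes `B v` is an
arbitrary real polynomial with constant term `1`. -/
structure IsEulerSystem (X : Set (MvPolynomial (Fin n) (𝓞 K))) (d i N : ℕ)
    (B : HeightOneSpectrum (𝓞 K) → ℝ[X]) : Prop where
  good : ∀ᶠ v in cofinite, ∃ α : Fin N → ℂ, IsFrobenius X d i v α ∧
    ∀ z : ℂ, ((B v).map (algebraMap ℝ ℂ)).eval z = ∏ j, (1 - α j * z)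
  const : ∀ v, (B v).coeff 0 = 1

/-- the norm `q_v` of the prime `v`, as a real number -/
noncomputable def nv (v : HeightOneSpectrum (𝓞 K)) : ℝ := (Ideal.absNorm v.asIdeal : ℝ)

theorem two_le_nv (v : HeightOneSpectrum (𝓞 K)) : 2 ≤ nv v := by
  have := two_le_nm v
  unfold nm at this
  unfold nv
  exact_mod_cast this

theorem nv_finite (R : ℝ) : {v : HeightOneSpectrum (𝓞 K) | nv v ≤ R}.Finite := by
  have h := (Pool.Agent.W189.NF.northcott_nm (K := K)).finite_le ⌊R⌋₊
  refine h.subset fun v hv => ?_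
  have hv' : nv v ≤ R := hv
  show nm v ≤ ⌊R⌋₊
  exact Nat.le_floor hv'

theorem good_root {X : Set (MvPolynomial (Fin n) (𝓞 K))} {d i N : ℕ}
    {v : HeightOneSpectrum (𝓞 K)} {α : Fin N → ℂ} (hα : IsFrobenius X d i v α) {p : ℂ[X]}
    (hp : ∀ z : ℂ, p.eval z = ∏ j, (1 - α j * z)) {ρ : ℂ} (hρ : p.IsRoot ρ) :
    nv v ^ (-((i : ℝ) / 2)) ≤ ‖ρ‖ := by
  obtain ⟨b, hb, hn, -⟩ := hα
  have h1 : ∏ j, (1 - α j * ρ) = 0 := by rw [← hp]; exact hρ
  obtain ⟨j, -, hj⟩ := Finset.prod_eq_zero_iff.1 h1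
  have h2 : ‖α j‖ = nv v ^ ((i : ℝ) / 2) := by
    refine hn i (α j) ?_
    rw [hb]
    exact Multiset.mem_map_of_mem α (Finset.mem_univ_val j)
  have h3 : α j * ρ = 1 := (sub_eq_zero.1 hj).symm
  have h4 : ‖α j‖ * ‖ρ‖ = 1 := by rw [← norm_mul, h3, norm_one]
  have hq : 0 < nv v := by linarith [two_le_nv v]
  rw [h2] at h4
  rw [Real.rpow_neg hq.le]
  have h5 : 0 < nv v ^ ((i : ℝ) / 2) := Real.rpow_pos_of_pos hq _
  rw [inv_eq_one_div, div_le_iff₀ h5, mul_comm]
  exact h4.ge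

theorem good_deg {N : ℕ} {B : ℝ[X]} {α : Fin N → ℂ}
    (hp : ∀ z : ℂ, (B.map (algebraMap ℝ ℂ)).eval z = ∏ j, (1 - α j * z)) : B.natDegree ≤ N := by
  have h1 : B.map (algebraMap ℝ ℂ) = ∏ j, (1 - C (α j) * X) := by
    refine Polynomial.funext fun z => ?_
    rw [hp, Polynomial.eval_prod]
    simp
  rw [← Polynomial.natDegree_map (algebraMap ℝ ℂ), h1]
  refine (Polynomial.natDegree_prod_le _ _).trans ?_
  have h2 : ∀ j ∈ (Finset.univ : Finset (Fin N)), (1 - C (α j) * X : ℂ[X]).natDegree ≤ 1 := by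
    intro j _
    refine (Polynomial.natDegree_sub_le _ _).trans ?_
    rw [Polynomial.natDegree_one, max_le_iff]
    exact ⟨zero_le_one, (Polynomial.natDegree_C_mul_le _ _).trans Polynomial.natDegree_X_le⟩
  refine (Finset.sum_le_sum h2).trans ?_
  simp

/-- a lower bound for the roots of one polynomial -/
theorem root_bound (B : ℝ[X]) (h0 : B.coeff 0 = 1) {q : ℝ} (hq : 2 ≤ q) :
    ∃ b : ℝ, 0 ≤ b ∧ ∀ ρ : ℂ, (B.map (algebraMap ℝ ℂ)).IsRoot ρ → q ^ (-b) ≤ ‖ρ‖ := by
  set p := B.map (algebraMap ℝ ℂ) with hp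
  have hc : p.coeff 0 = 1 := by rw [hp, Polynomial.coeff_map, h0]; simp
  have hp0 : p ≠ 0 := by
    intro h
    rw [h] at hc
    simp at hc
  have hq1 : 1 < q := by linarith
  have hlq : 0 < Real.log q := Real.log_pos hq1
  refine ⟨(p.roots.map fun ρ => |Real.log ‖ρ‖| / Real.log q).sum, ?_, ?_⟩
  · refine Multiset.sum_nonneg fun x hx => ?_
    obtain ⟨ρ, -, rfl⟩ := Multiset.mem_map.1 hx
    positivity
  · intro ρ hρ
    have hmem : ρ ∈ p.roots := (Polynomial.mem_roots hp0).2 hρ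
    have hne : ρ ≠ 0 := by
      rintro rfl
      rw [Polynomial.IsRoot.def, ← Polynomial.coeff_zero_eq_eval_zero, hc] at hρ
      exact one_ne_zero hρ
    have hpos : 0 < ‖ρ‖ := norm_pos_iff.2 hne
    have h1 : |Real.log ‖ρ‖| / Real.log q ≤
        (p.roots.map fun ρ => |Real.log ‖ρ‖| / Real.log q).sum := by
      refine Multiset.single_le_sum (fun x hx => ?_) _ (Multiset.mem_map_of_mem _ hmem)
      obtain ⟨ρ', -, rfl⟩ := Multiset.mem_map.1 hx
      positivity
    set b := (p.roots.map fun ρ => |Real.log ‖ρ‖| / Real.log q).sum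
    rw [div_le_iff₀ hlq] at h1
    have h2 : -Real.log ‖ρ‖ ≤ b * Real.log q := (neg_le_abs _).trans h1
    rw [Real.rpow_def_of_pos (by linarith), ← Real.le_log_iff_exp_le hpos]
    linarith [mul_comm b (Real.log q)]

/-- the numerical data -/
theorem IsEulerSystem.ldata {X : Set (MvPolynomial (Fin n) (𝓞 K))} {d i N : ℕ}
    {B : HeightOneSpectrum (𝓞 K) → ℝ[X]} (hB : IsEulerSystem X d i N B) :
    ∃ N' : ℕ, (∃ β : ℝ, LData nv B 1 β N') ∧ ∀ β : ℝ, (∀ v, ∀ ρ : ℂ,
      ((B v).map (algebraMap ℝ ℂ)).IsRoot ρ → nv v ^ (-β) ≤ ‖ρ‖) → LData nv B 1 β N' := by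
  classical
  set S : Set (HeightOneSpectrum (𝓞 K)) := {v | ¬ ∃ α : Fin N → ℂ, IsFrobenius X d i v α ∧
    ∀ z : ℂ, ((B v).map (algebraMap ℝ ℂ)).eval z = ∏ j, (1 - α j * z)} with hS
  have hSf : S.Finite := Filter.eventually_cofinite.1 hB.good
  have hdeg : ∀ v, (B v).natDegree ≤ N + ∑ w ∈ hSf.toFinset, (B w).natDegree := by
    intro v
    by_cases hv : v ∈ S
    · have h1 : (B v).natDegree ≤ ∑ w ∈ hSf.toFinset, (B w).natDegree :=
        Finset.single_le_sum (f := fun w => (B w).natDegree) (fun _ _ => Nat.zero_le _)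
          (hSf.mem_toFinset.2 hv)
      omega
    · have hv' : ∃ α : Fin N → ℂ, IsFrobenius X d i v α ∧
          ∀ z : ℂ, ((B v).map (algebraMap ℝ ℂ)).eval z = ∏ j, (1 - α j * z) := by
        by_contra h
        exact hv h
      obtain ⟨α, -, h1⟩ := hv'
      have := good_deg h1
      omega
  have hall : ∀ β : ℝ, (∀ v, ∀ ρ : ℂ,
      ((B v).map (algebraMap ℝ ℂ)).IsRoot ρ → nv v ^ (-β) ≤ ‖ρ‖) →
      LData nv B 1 β (N + ∑ w ∈ hSf.toFinset, (B w).natDegree) := fun β hβ =>
    { two_le := two_le_nv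
      δ_nonneg := zero_le_one
      sum := fun σ hσ => nm_summable hσ
      const := hB.const
      deg := hdeg
      root := hβ }
  refine ⟨N + ∑ w ∈ hSf.toFinset, (B w).natDegree, ?_, hall⟩
  choose b hb0 hb using fun v => root_bound (B v) (hB.const v) (two_le_nv v)
  have hb1 : 0 ≤ ∑ w ∈ hSf.toFinset, b w := Finset.sum_nonneg fun w _ => hb0 w
  refine ⟨(i : ℝ) / 2 + ∑ w ∈ hSf.toFinset, b w, hall _ fun v ρ hρ => ?_⟩
  have hq1 : 1 ≤ nv v := by linarith [two_le_nv v]
  by_cases hv : v ∈ S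
  · refine le_trans ?_ (hb v ρ hρ)
    refine Real.rpow_le_rpow_of_exponent_le hq1 ?_
    have h1 : b v ≤ ∑ w ∈ hSf.toFinset, b w :=
      Finset.single_le_sum (f := b) (fun w _ => hb0 w) (hSf.mem_toFinset.2 hv)
    have : (0 : ℝ) ≤ (i : ℝ) / 2 := by positivity
    linarith
  · have hv' : ∃ α : Fin N → ℂ, IsFrobenius X d i v α ∧
        ∀ z : ℂ, ((B v).map (algebraMap ℝ ℂ)).eval z = ∏ j, (1 - α j * z) := by
      by_contra h
      exact hv h
    obtain ⟨α, h1, h2⟩ := hv'
    refine le_trans ?_ (good_root h1 h2 hρ)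
    exact Real.rpow_le_rpow_of_exponent_le hq1 (by linarith)

end Pool.Agent.TH652.COL
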