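import Pool.Agent.TH652.COL.Local

/-! The law of the order and of the leading coefficient at a real point, for general Euler products. -/

set_option autoImplicit false

namespace Pool.Agent.TH652.COL

open Filter Topology Set Polynomial
open Pool.Agent.W189.ML Pool.Agent.W189.LC Pool.Agent.W187.UR

variable {P : Type} {q : P → ℝ} {B : P → ℝ[X]}

/-- An Euler product over the countable set `P` with norms `q v ≥ 2`, `∑ q v ^ (-σ) < ∞` for `σ > δ`,
with factors `B v (q v ^ (-s))⁻¹` of bounded degree, the inverse roots being at most `q v ^ β`. -/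
structure LData (q : P → ℝ) (B : P → ℝ[X]) (δ β : ℝ) (N : ℕ) : Prop where
  two_le : ∀ v, 2 ≤ q v
  δ_nonneg : 0 ≤ δ
  sum : ∀ σ : ℝ, δ < σ → Summable fun v => q v ^ (-σ)
  const : ∀ v, (B v).coeff 0 = 1
  deg : ∀ v, (B v).natDegree ≤ N
  root : ∀ v, ∀ ρ : ℂ, ((B v).map (algebraMap ℝ ℂ)).IsRoot ρ → q v ^ (-β) ≤ ‖ρ‖

/-- the term of the rotated sum at the place `v = x.1` and the exponent `k = x.2 + 1` -/
noncomputable def lterm (q : P → ℝ) (B : P → ℝ[X]) (s₀ γ T : ℝ) (x : P × ℕ) : ℂ :=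
  ((-(pw (B x.1) (x.2 + 1) * q x.1 ^ (-((x.2 + 1) * s₀)) /
    ((x.2 + 1) * Real.Gamma (1 + (x.2 + 1) * Real.log (q x.1) / T))) : ℝ) : ℂ) *
    Complex.exp ((γ * ((x.2 + 1) * Real.log (q x.1) / T) : ℝ) * Complex.I)

/-- frequencies -/
noncomputable def fq (q : P → ℝ) (D : ℝ) (x : P × ℕ) : ℝ := D * ((x.2 + 1) * Real.log (q x.1))

/-- coefficients -/
noncomputable def cq (q : P → ℝ) (B : P → ℝ[X]) (s₀ : ℝ) (x : P × ℕ) : ℝ :=
  pw (B x.1) (x.2 + 1) * q x.1 ^ (-((x.2 + 1) * s₀)) / (x.2 + 1)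

variable {δ β : ℝ} {N : ℕ}

theorem LData.pos (E : LData q B δ β N) (v : P) : 0 < q v := by linarith [E.two_le v]

theorem LData.logpos (E : LData q B δ β N) (v : P) : 0 < Real.log (q v) :=
  Real.log_pos (by linarith [E.two_le v])

theorem LData.pw_le (E : LData q B δ β N) (v : P) (k : ℕ) : |pw (B v) k| ≤ N * (q v ^ β) ^ k := by
  have hq := E.pos v
  refine abs_pw_le (B v) (E.deg v) (by positivity) (fun ρ hρ => ?_) k
  have h1 := E.root v ρ hρ
  rwa [Real.rpow_neg hq.le] at h1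

theorem LData.fq_nonneg (E : LData q B δ β N) {D : ℝ} (hD : 0 ≤ D) (x : P × ℕ) : 0 ≤ fq q D x := by
  have := E.logpos x.1
  unfold fq
  positivity

theorem LData.term_le (E : LData q B δ β N) {D σ a s₀ : ℝ} (ha : a = σ * D + s₀ - β) (ha1 : 0 < a)
    (x : P × ℕ) :
    |cq q B s₀ x| * Real.exp (-(σ * fq q D x)) ≤ N * q x.1 ^ (-a) * ((2 : ℝ) ^ (-a)) ^ x.2 := by
  have hq := E.pos x.1
  have h1 : Real.exp (-(σ * fq q D x)) = q x.1 ^ (-((x.2 + 1) * (σ * D))) := by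
    rw [Real.rpow_def_of_pos hq]
    unfold fq
    congr 1
    ring
  have h2 : |cq q B s₀ x| ≤ N * (q x.1 ^ β) ^ (x.2 + 1) * q x.1 ^ (-((x.2 + 1) * s₀)) := by
    unfold cq
    have h3 := E.pw_le x.1 (x.2 + 1)
    have h4 : (1 : ℝ) ≤ x.2 + 1 := by
      have : (0 : ℝ) ≤ x.2 := x.2.cast_nonneg
      linarith
    rw [abs_div, abs_mul, abs_of_pos (by positivity : (0 : ℝ) < x.2 + 1),
      abs_of_pos (by positivity : (0 : ℝ) < q x.1 ^ (-((x.2 + 1) * s₀)))]
    refine (div_le_self (by positivity) h4).trans ?_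
    gcongr
  have h3 : (q x.1 ^ β) ^ (x.2 + 1) = q x.1 ^ ((x.2 + 1) * β) := by
    rw [← Real.rpow_natCast, ← Real.rpow_mul hq.le]
    congr 1
    push_cast
    ring
  have h4 : (q x.1 ^ (-a)) ^ x.2 ≤ ((2 : ℝ) ^ (-a)) ^ x.2 := by
    refine pow_le_pow_left₀ (by positivity) ?_ _
    exact Real.rpow_le_rpow_of_nonpos (by norm_num) (E.two_le x.1) (by linarith)
  have h5 : q x.1 ^ (-a) * (q x.1 ^ (-a)) ^ x.2 =
      q x.1 ^ ((x.2 + 1) * β) * q x.1 ^ (-((x.2 + 1) * s₀)) * q x.1 ^ (-((x.2 + 1) * (σ * D))) := by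
    rw [← pow_succ', ← Real.rpow_natCast, ← Real.rpow_mul hq.le, ← Real.rpow_add hq,
      ← Real.rpow_add hq, ha]
    congr 1
    push_cast
    ring
  rw [h1]
  calc |cq q B s₀ x| * q x.1 ^ (-((x.2 + 1) * (σ * D))) ≤
      (N * (q x.1 ^ β) ^ (x.2 + 1) * q x.1 ^ (-((x.2 + 1) * s₀))) *
        q x.1 ^ (-((x.2 + 1) * (σ * D))) := by gcongr
    _ = N * (q x.1 ^ (-a) * (q x.1 ^ (-a)) ^ x.2) := by rw [h5, h3]; ring
    _ ≤ N * (q x.1 ^ (-a) * ((2 : ℝ) ^ (-a)) ^ x.2) := by gcongr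
    _ = _ := by ring

theorem LData.summable (E : LData q B δ β N) {D σ s₀ : ℝ} (h : δ < σ * D + s₀ - β) :
    Summable fun x => |cq q B s₀ x| * Real.exp (-(σ * fq q D x)) := by
  set a := σ * D + s₀ - β with ha
  have ha1 : 0 < a := lt_of_le_of_lt E.δ_nonneg h
  have hg : Summable fun n : ℕ => ((2 : ℝ) ^ (-a)) ^ n := by
    refine summable_geometric_of_lt_one (by positivity) ?_
    exact Real.rpow_lt_one_of_one_lt_of_neg (by norm_num) (by linarith)
  have h1 := ((E.sum a h).mul_left (N : ℝ)).mul_of_nonneg hg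
    (fun v => by
      have := E.pos v
      show 0 ≤ (N : ℝ) * q v ^ (-a)
      positivity) (fun n => by positivity)
  exact Summable.of_nonneg_of_le (fun x => by positivity) (fun x => E.term_le ha ha1 x) h1

/-- the Euler factor -/
theorem LData.factor_sum (E : LData q B δ β N) {D s₀ : ℝ} {w : ℂ} (hw : β < s₀ + D * w.re)
    (v : P) :
    HasSum (fun n : ℕ => (cq q B s₀ (v, n) : ℂ) * Complex.exp (-(w * fq q D (v, n))))
      (∑' n : ℕ, (cq q B s₀ (v, n) : ℂ) * Complex.exp (-(w * fq q D (v, n)))) ∧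
    Complex.exp (∑' n : ℕ, (cq q B s₀ (v, n) : ℂ) * Complex.exp (-(w * fq q D (v, n)))) =
      (((B v).map (algebraMap ℝ ℂ)).eval ((q v : ℂ) ^ (-((s₀ : ℂ) + D * w))))⁻¹ := by
  have hq := E.pos v
  have hqc : (q v : ℂ) ≠ 0 := by exact_mod_cast hq.ne'
  set z : ℂ := (q v : ℂ) ^ (-((s₀ : ℂ) + D * w)) with hz
  have hzn : ‖z‖ = q v ^ (-(s₀ + D * w.re)) := by
    rw [hz, Complex.norm_cpow_eq_rpow_re_of_pos hq]
    simp
  have h1 := factor (B v) (E.const v) (z := z) (fun ρ hρ => by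
    refine lt_of_lt_of_le ?_ (E.root v ρ hρ)
    rw [hzn]
    exact Real.rpow_lt_rpow_of_exponent_lt (by linarith [E.two_le v]) (by linarith))
  have h2 : ∀ n : ℕ, (cq q B s₀ (v, n) : ℂ) * Complex.exp (-(w * fq q D (v, n))) =
      (pw (B v) (n + 1) : ℂ) * z ^ (n + 1) / ((n + 1 : ℕ) : ℂ) := by
    intro n
    have e1 : z ^ (n + 1) = (((q v : ℝ) ^ (-(((n : ℝ) + 1) * s₀)) : ℝ) : ℂ) *
        Complex.exp (-(w * fq q D (v, n))) := by
      rw [hz, Complex.cpow_def_of_ne_zero hqc, ← Complex.exp_nat_mul, Real.rpow_def_of_pos hq,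
        Complex.ofReal_exp, ← Complex.exp_add]
      congr 1
      unfold fq
      rw [← Complex.ofReal_log hq.le]
      push_cast
      ring
    rw [e1]
    unfold cq
    push_cast
    ring
  simp only [h2]
  exact h1

theorem LData.csummable (E : LData q B δ β N) {D s₀ : ℝ} {w : ℂ}
    (hw : δ < w.re * D + s₀ - β) :
    Summable fun x : P × ℕ => (cq q B s₀ x : ℂ) * Complex.exp (-(w * fq q D x)) := by
  refine Summable.of_norm_bounded (E.summable hw) fun x => ?_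
  rw [norm_mul, Complex.norm_real, Real.norm_eq_abs, Complex.norm_exp]
  have : (-(w * fq q D x)).re = -(w.re * fq q D x) := by
    rw [Complex.neg_re, Complex.re_mul_ofReal]
  rw [this]

/-- the Euler product is the exponential of the series -/
theorem LData.hasProd (E : LData q B δ β N) {D s₀ : ℝ} {w : ℂ} (hw : δ < w.re * D + s₀ - β) :
    HasProd (fun v => (((B v).map (algebraMap ℝ ℂ)).eval ((q v : ℂ) ^ (-((s₀ : ℂ) + D * w))))⁻¹)
      (Complex.exp (ser (fq q D) (cq q B s₀) w)) := by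
  have h0 : β < s₀ + D * w.re := by
    have := E.δ_nonneg
    linarith [mul_comm D w.re]
  have h1 : HasSum (fun x : P × ℕ => (cq q B s₀ x : ℂ) * Complex.exp (-(w * fq q D x)))
      (ser (fq q D) (cq q B s₀) w) := (E.csummable hw).hasSum
  have h2 := h1.prod_fiberwise (fun v => (E.factor_sum h0 v).1)
  have h3 := h2.cexp
  have h4 : (Complex.exp ∘ fun v => ∑' n : ℕ, (cq q B s₀ (v, n) : ℂ) *
      Complex.exp (-(w * fq q D (v, n)))) =
      fun v => (((B v).map (algebraMap ℝ ℂ)).eval ((q v : ℂ) ^ (-((s₀ : ℂ) + D * w))))⁻¹ := by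
    funext v
    exact (E.factor_sum h0 v).2
  rw [h4] at h3
  exact h3

/-- the product as a function of `s` -/
noncomputable def LF (q : P → ℝ) (B : P → ℝ[X]) (s : ℂ) : ℂ :=
  ∏' v, (((B v).map (algebraMap ℝ ℂ)).eval ((q v : ℂ) ^ (-s)))⁻¹

theorem LData.mdata (E : LData q B δ β N) {F : ℂ → ℂ} {s₀ σ₁ D : ℝ} (hD : 0 < D)
    (hD1 : β + δ ≤ s₀ + D) (hD2 : σ₁ ≤ s₀ + D)
    (hmer : ∀ x : ℝ, s₀ ≤ x → MeromorphicAt F (x : ℂ))
    (hF : ∀ s : ℂ, σ₁ < s.re → F s = LF q B s) :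
    MData (fq q D) (cq q B s₀) (fun w => F (s₀ + D * w)) where
  lam_pos := E.fq_nonneg hD.le
  sum := fun σ hσ => E.summable (by nlinarith)
  mero := fun x hx => by
    have h1 := hmer (s₀ + D * x) (by
      have : 0 ≤ D * x := mul_nonneg hD.le hx.1
      linarith)
    push_cast at h1
    exact MeromorphicAt.comp_analyticAt (g := fun w : ℂ => (s₀ : ℂ) + D * w) h1 (by fun_prop)
  eq := fun w hw => by
    have h0 : δ < w.re * D + s₀ - β := by nlinarith
    have h1 : σ₁ < ((s₀ : ℂ) + D * w).re := by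
      have : ((s₀ : ℂ) + D * w).re = s₀ + D * w.re := by simp
      rw [this]
      nlinarith
    have h2 := E.hasProd h0
    rw [hF _ h1]
    exact h2.tprod_eq

end Pool.Agent.TH652.COL
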