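import Pool.Agent.TH652.COL.Law

/-! The finite sums, and the order as a limit. -/

set_option autoImplicit false

namespace Pool.Agent.TH652.COL

open Filter Topology Set Polynomial
open Pool.Agent.W189.ML Pool.Agent.W189.LC Pool.Agent.W187.UR

variable {P : Type} {q : P → ℝ} {B : P → ℝ[X]} {δ β : ℝ} {N : ℕ}

/-- the prime powers `q v ^ k`, `k = x.2 + 1`, with `log (q v ^ k) ≤ e^{A T}` -/
def cut (q : P → ℝ) (A T : ℝ) : Set (P × ℕ) :=
  {x | (x.2 + 1) * Real.log (q x.1) ≤ Real.exp (A * T)}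

theorem cut_finite (h2 : ∀ v, 2 ≤ q v) (hfin : ∀ R : ℝ, {v | q v ≤ R}.Finite) (A T : ℝ) :
    (cut q A T).Finite := by
  have hl2 : 0 < Real.log 2 := Real.log_pos (by norm_num)
  refine ((hfin (Real.exp (Real.exp (A * T)))).prod
    (Set.finite_Iic (⌊Real.exp (A * T) / Real.log 2⌋₊))).subset ?_
  intro x hx
  have hx' : ((x.2 : ℝ) + 1) * Real.log (q x.1) ≤ Real.exp (A * T) := hx
  have hq := h2 x.1
  have hlq : Real.log 2 ≤ Real.log (q x.1) := Real.log_le_log (by norm_num) hq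
  have hk : (0 : ℝ) ≤ x.2 := x.2.cast_nonneg
  constructor
  · show q x.1 ≤ Real.exp (Real.exp (A * T))
    rw [← Real.log_le_iff_le_exp (by linarith)]
    nlinarith
  · show x.2 ≤ ⌊Real.exp (A * T) / Real.log 2⌋₊
    refine Nat.le_floor ?_
    rw [le_div_iff₀ hl2]
    nlinarith

/-- comparison of exponentials -/
theorem exp_cmp {a A κ : ℝ} (hA : 0 < A) (ha : a < A) (hκ : 0 < κ) :
    ∀ᶠ T : ℝ in atTop, Real.exp (a * T) + T ≤ κ * Real.exp (A * T) := by
  have h1 : Tendsto (fun T : ℝ => Real.exp (-((A - a) * T))) atTop (𝓝 0) := by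
    refine Real.tendsto_exp_neg_atTop_nhds_zero.comp ?_
    exact tendsto_id.const_mul_atTop (by linarith)
  have h2 : Tendsto (fun T : ℝ => T * Real.exp (-(A * T))) atTop (𝓝 0) := by
    have h3 : Tendsto (fun T : ℝ => A * T) atTop atTop := tendsto_id.const_mul_atTop hA
    have h4 := (Real.tendsto_pow_mul_exp_neg_atTop_nhds_zero 1).comp h3
    have h5 := h4.const_mul A⁻¹
    rw [mul_zero] at h5
    refine h5.congr fun T => ?_
    simp only [Function.comp_apply, pow_one]
    field_simp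
  have h3 := (h1.add h2).eventually (gt_mem_nhds (show (0 : ℝ) + 0 < κ by linarith))
  filter_upwards [h3] with T hT
  have h4 : Real.exp (a * T) + T =
      (Real.exp (-((A - a) * T)) + T * Real.exp (-(A * T))) * Real.exp (A * T) := by
    rw [add_mul, ← Real.exp_add, mul_assoc, ← Real.exp_add]
    have e1 : -((A - a) * T) + A * T = a * T := by ring
    have e2 : -(A * T) + A * T = 0 := by ring
    rw [e1, e2, Real.exp_zero, mul_one]
  rw [h4]
  exact mul_le_mul_of_nonneg_right hT.le (Real.exp_pos _).le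

/-- **the tail is negligible** -/
theorem LData.cut_isBigO (E : LData q B δ β N) (hfin : ∀ R : ℝ, {v | q v ≤ R}.Finite)
    (s₀ γ : ℝ) {A : ℝ} (hA : 0 < A) (hA1 : δ + β - s₀ < A) :
    (fun T : ℝ => lsum q B s₀ γ T - ∑ᶠ x ∈ cut q A T, lterm q B s₀ γ T x) =O[atTop]
      (fun T : ℝ => 1 / T) := by
  set a₀ : ℝ := max 0 (δ + β - s₀) with ha₀
  have ha₀A : a₀ < A := max_lt hA hA1
  have ha₀0 : 0 ≤ a₀ := le_max_left _ _
  have ha₀1 : δ + β - s₀ ≤ a₀ := le_max_right _ _
  set a₁ : ℝ := (2 * a₀ + A) / 3 with ha₁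
  set a₂ : ℝ := (a₀ + 2 * A) / 3 with ha₂
  have h01 : a₀ < a₁ := by rw [ha₁]; linarith
  have h12 : a₁ < a₂ := by rw [ha₁, ha₂]; linarith
  have h2A : a₂ < A := by rw [ha₂]; linarith
  have hs : Summable fun x => |cq q B s₀ x| * Real.exp (-(a₁ * fq q 1 x)) :=
    E.summable (by linarith)
  set M : ℝ := ∑' x, |cq q B s₀ x| * Real.exp (-(a₁ * fq q 1 x)) with hM
  have hM0 : 0 ≤ M := tsum_nonneg fun x => by positivity
  have hκ : 0 < a₂ - a₁ := by linarith
  refine Asymptotics.IsBigO.of_bound (2 * M) ?_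
  filter_upwards [exp_cmp hA h2A hκ, eventually_gt_atTop 0] with T hT hT0
  have hsum := E.lsummable s₀ γ hT0
  have hsum' : Summable fun x => lterm q B s₀ γ T x := hsum.of_norm
  have hcf := cut_finite E.two_le hfin A T
  have h1 : lsum q B s₀ γ T - ∑ᶠ x ∈ cut q A T, lterm q B s₀ γ T x =
      ∑' x : ((cut q A T)ᶜ : Set (P × ℕ)), lterm q B s₀ γ T x := by
    have h2 := hsum'.tsum_subtype_add_tsum_subtype_compl (cut q A T)
    have h3 : ∑' x : cut q A T, lterm q B s₀ γ T x = ∑ᶠ x ∈ cut q A T, lterm q B s₀ γ T x := by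
      rw [finsum_mem_eq_finite_toFinset_sum _ hcf, ← Finset.tsum_subtype]
      have h4 : ((hcf.toFinset : Finset (P × ℕ)) : Set (P × ℕ)) = cut q A T := hcf.coe_toFinset
      exact (congrArg (fun S : Set (P × ℕ) => ∑' x : S, lterm q B s₀ γ T x) h4).symm
    unfold lsum
    rw [← h2, h3]
    ring
  rw [h1]
  have hb : ∀ x : ((cut q A T)ᶜ : Set (P × ℕ)), ‖lterm q B s₀ γ T x‖ ≤
      (2 * Real.exp (-T)) * (|cq q B s₀ x| * Real.exp (-(a₁ * fq q 1 x))) := by
    rintro ⟨x, hx⟩
    simp only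
    have hx' : Real.exp (A * T) < fq q 1 x := by
      have h5 : ¬ ((x.2 : ℝ) + 1) * Real.log (q x.1) ≤ Real.exp (A * T) := hx
      push Not at h5
      unfold fq
      linarith
    have h6 := E.norm_lterm_le (s₀ := s₀) (γ := γ) (D := 1) (a := a₂) zero_lt_one hT0
      (by linarith) x
    rw [one_mul] at h6
    refine h6.trans ?_
    have h7 : Real.exp (-(a₂ * fq q 1 x)) ≤
        Real.exp (-(a₁ * fq q 1 x)) * Real.exp (-((a₂ - a₁) * Real.exp (A * T))) := by
      rw [← Real.exp_add]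
      apply Real.exp_le_exp.2
      nlinarith
    have h8 : (Real.exp (Real.exp (a₂ * T)) + 1) * Real.exp (-((a₂ - a₁) * Real.exp (A * T))) ≤
        2 * Real.exp (-T) := by
      have h9 : (1 : ℝ) ≤ Real.exp (Real.exp (a₂ * T)) :=
        Real.one_le_exp (Real.exp_pos _).le
      calc (Real.exp (Real.exp (a₂ * T)) + 1) * Real.exp (-((a₂ - a₁) * Real.exp (A * T))) ≤
          (2 * Real.exp (Real.exp (a₂ * T))) * Real.exp (-((a₂ - a₁) * Real.exp (A * T))) := by
            gcongr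
            linarith
        _ = 2 * Real.exp (Real.exp (a₂ * T) - (a₂ - a₁) * Real.exp (A * T)) := by
            rw [mul_assoc, ← Real.exp_add]
            rfl
        _ ≤ 2 * Real.exp (-T) := by
            have h10 : Real.exp (Real.exp (a₂ * T) - (a₂ - a₁) * Real.exp (A * T)) ≤
                Real.exp (-T) := Real.exp_le_exp.2 (by linarith)
            linarith
    calc (Real.exp (Real.exp (a₂ * T)) + 1) * (|cq q B s₀ x| * Real.exp (-(a₂ * fq q 1 x))) ≤
        (Real.exp (Real.exp (a₂ * T)) + 1) * (|cq q B s₀ x| * (Real.exp (-(a₁ * fq q 1 x)) *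
          Real.exp (-((a₂ - a₁) * Real.exp (A * T))))) := by gcongr
      _ = ((Real.exp (Real.exp (a₂ * T)) + 1) * Real.exp (-((a₂ - a₁) * Real.exp (A * T)))) *
          (|cq q B s₀ x| * Real.exp (-(a₁ * fq q 1 x))) := by ring
      _ ≤ _ := mul_le_mul_of_nonneg_right h8 (by positivity)
  have hs1 : Summable fun x : ((cut q A T)ᶜ : Set (P × ℕ)) =>
      (2 * Real.exp (-T)) * (|cq q B s₀ x| * Real.exp (-(a₁ * fq q 1 x))) :=
    (hs.subtype _).mul_left _
  have h11 : ‖∑' x : ((cut q A T)ᶜ : Set (P × ℕ)), lterm q B s₀ γ T x‖ ≤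
      ∑' x : ((cut q A T)ᶜ : Set (P × ℕ)),
        (2 * Real.exp (-T)) * (|cq q B s₀ x| * Real.exp (-(a₁ * fq q 1 x))) :=
    tsum_of_norm_bounded hs1.hasSum hb
  refine h11.trans ?_
  have h12 : ∑' x : ((cut q A T)ᶜ : Set (P × ℕ)),
      (2 * Real.exp (-T)) * (|cq q B s₀ x| * Real.exp (-(a₁ * fq q 1 x))) ≤
      (2 * Real.exp (-T)) * M := by
    rw [tsum_mul_left]
    refine mul_le_mul_of_nonneg_left ?_ (by positivity)
    refine Summable.tsum_subtype_le _ _ (fun x => ?_) hs
    positivity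
  refine h12.trans ?_
  have h13 : Real.exp (-T) ≤ 1 / T := by
    rw [Real.exp_neg, inv_eq_one_div]
    refine one_div_le_one_div_of_le hT0 ?_
    have := Real.add_one_le_exp T
    linarith
  rw [Real.norm_eq_abs, abs_of_pos (by positivity : 0 < 1 / T)]
  nlinarith [mul_nonneg hM0 (sub_nonneg.2 h13)]

/-- the order is the limit of `Re f / log T` -/
theorem order_limit {f : ℝ → ℂ} {m : ℤ} {c : ℂ}
    (h : (fun T : ℝ => f T - (m * Real.log T + c)) =O[atTop] (fun T : ℝ => 1 / T)) :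
    Tendsto (fun T : ℝ => (f T).re / Real.log T) atTop (𝓝 (m : ℝ)) := by
  have h0 : Tendsto (fun T : ℝ => (1 : ℝ) / T) atTop (𝓝 0) := tendsto_const_nhds.div_atTop tendsto_id
  have h1 : Tendsto (fun T : ℝ => f T - (m * Real.log T + c)) atTop (𝓝 0) := h.trans_tendsto h0
  have h2 : Tendsto (fun T : ℝ => (f T - (m * Real.log T + c)).re) atTop (𝓝 0) := by
    have := (Complex.continuous_re.tendsto 0).comp h1
    rw [Complex.zero_re] at this
    exact this
  have h3 : Tendsto (fun T : ℝ => (f T - (m * Real.log T + c)).re + c.re) atTop (𝓝 (0 + c.re)) :=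
    h2.add_const _
  have h4 := h3.div_atTop Real.tendsto_log_atTop
  have h5 := h4.const_add (m : ℝ)
  rw [add_zero] at h5
  refine h5.congr' ?_
  filter_upwards [eventually_gt_atTop 1] with T hT
  have hl : 0 < Real.log T := Real.log_pos hT
  have e1 : ((m : ℂ) * Real.log T).re = m * Real.log T := by
    have : ((m : ℂ) * Real.log T) = ((m * Real.log T : ℝ) : ℂ) := by push_cast; rfl
    rw [this, Complex.ofReal_re]
  rw [Complex.sub_re, Complex.add_re, e1]
  field_simp
  ring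

end Pool.Agent.TH652.COL
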