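import Pool.Agent.TH652.COL.Core

/-! The law of the order and of the leading coefficient at a real point. -/

set_option autoImplicit false

namespace Pool.Agent.TH652.COL

open Filter Topology Set Polynomial
open Pool.Agent.W189.ML Pool.Agent.W189.LC Pool.Agent.W187.UR

theorem deriv_scale (s₀ D : ℝ) (w : ℂ) :
    HasDerivAt (fun w : ℂ => (s₀ : ℂ) + D * w) D w := by
  have h1 : HasDerivAt (fun w : ℂ => (D : ℂ) * w) (D * 1) w := (hasDerivAt_id w).const_mul (D : ℂ)
  rw [mul_one] at h1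
  exact h1.const_add (s₀ : ℂ)

theorem order_scale (F : ℂ → ℂ) {s₀ D : ℝ} (hD : D ≠ 0) (x : ℝ) :
    meromorphicOrderAt (fun w : ℂ => F (s₀ + D * w)) (x : ℂ) =
      meromorphicOrderAt F ((s₀ + D * x : ℝ) : ℂ) := by
  have h1 := meromorphicOrderAt_comp_of_deriv_ne_zero (f := F) (x := (x : ℂ))
    (g := fun w : ℂ => (s₀ : ℂ) + D * w) (by fun_prop) (by
      rw [(deriv_scale s₀ D _).deriv]
      exact_mod_cast hD)
  push_cast
  exact h1

theorem coeff_scale {F : ℂ → ℂ} {s₀ D : ℝ} (hD : D ≠ 0) (hF : MeromorphicAt F (s₀ : ℂ)) {m : ℤ}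
    (hm : meromorphicOrderAt F (s₀ : ℂ) = m) :
    meromorphicTrailingCoeffAt (fun w : ℂ => F (s₀ + D * w)) 0 =
      (D : ℂ) ^ m * meromorphicTrailingCoeffAt F (s₀ : ℂ) := by
  have hDc : (D : ℂ) ≠ 0 := by exact_mod_cast hD
  obtain ⟨g, hg, hg0, hgF⟩ := (meromorphicOrderAt_eq_int_iff hF).1 hm
  have h1 := hg.meromorphicTrailingCoeffAt_of_ne_zero_of_eq_nhdsNE hg0 hgF
  have ha : AnalyticAt ℂ (fun w : ℂ => g ((s₀ : ℂ) + D * w)) 0 := by
    have h2 : AnalyticAt ℂ g ((fun w : ℂ => (s₀ : ℂ) + D * w) 0) := by simpa using hg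
    exact AnalyticAt.comp (g := g) (f := fun w : ℂ => (s₀ : ℂ) + D * w) h2 (by fun_prop)
  have ht : Tendsto (fun w : ℂ => (s₀ : ℂ) + D * w) (𝓝[≠] 0) (𝓝[≠] (s₀ : ℂ)) := by
    refine tendsto_nhdsWithin_iff.2 ⟨?_, ?_⟩
    · have h2 : Tendsto (fun w : ℂ => (s₀ : ℂ) + D * w) (𝓝 0) (𝓝 ((s₀ : ℂ) + D * 0)) :=
        Continuous.tendsto (by fun_prop) 0
      rw [mul_zero, add_zero] at h2
      exact h2.mono_left nhdsWithin_le_nhds
    · filter_upwards [self_mem_nhdsWithin] with w hw h3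
      have h4 : (D : ℂ) * w = 0 := by
        have h5 : (s₀ : ℂ) + D * w = s₀ := h3
        linear_combination h5
      exact hw ((mul_eq_zero.1 h4).resolve_left hDc)
  have h2 := (analyticAt_const (v := (D : ℂ) ^ m) (x := (0 : ℂ))).mul ha
  have h3 : ((fun w : ℂ => (D : ℂ) ^ m) * fun w : ℂ => g ((s₀ : ℂ) + D * w)) 0 ≠ 0 := by
    simp only [Pi.mul_apply, mul_zero, add_zero]
    exact mul_ne_zero (zpow_ne_zero _ hDc) hg0
  have h4 := h2.meromorphicTrailingCoeffAt_of_ne_zero_of_eq_nhdsNE (n := m)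
    (f := fun w : ℂ => F (s₀ + D * w)) h3 (by
      filter_upwards [ht.eventually hgF] with w hw
      rw [hw]
      simp only [Pi.mul_apply, smul_eq_mul, sub_zero]
      rw [add_sub_cancel_left, mul_zpow]
      ring)
  rw [h4, h1]
  simp

/-- the number of the zeros minus the number of the poles of `F` on `(s₀, ∞)`, with
multiplicities -/
noncomputable def excess (F : ℂ → ℂ) (s₀ : ℝ) : ℤ :=
  ∑ᶠ σ ∈ Ioi s₀, (meromorphicOrderAt F (σ : ℂ)).untop₀

theorem excess_eq {F : ℂ → ℂ} {s₀ D : ℝ} (hD : 0 < D)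
    (hr : ∀ σ : ℝ, s₀ + D < σ → meromorphicOrderAt F (σ : ℂ) = 0) :
    (∑ᶠ x ∈ Ioc (0 : ℝ) 1, (meromorphicOrderAt (fun w => F (s₀ + D * w)) (x : ℂ)).untop₀) =
      excess F s₀ := by
  unfold excess
  have h1 : (∑ᶠ x ∈ Ioc (0 : ℝ) 1,
      (meromorphicOrderAt (fun w => F (s₀ + D * w)) (x : ℂ)).untop₀) =
      ∑ᶠ x ∈ Ioc (0 : ℝ) 1, (meromorphicOrderAt F ((s₀ + D * x : ℝ) : ℂ)).untop₀ := by
    refine finsum_mem_congr rfl fun x _ => ?_
    rw [order_scale F hD.ne']
  have h2 : (∑ᶠ σ ∈ Ioi s₀, (meromorphicOrderAt F (σ : ℂ)).untop₀) =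
      ∑ᶠ σ ∈ Ioc s₀ (s₀ + D), (meromorphicOrderAt F (σ : ℂ)).untop₀ := by
    refine finsum_mem_inter_support_eq' _ _ _ fun σ hσ => ?_
    rw [Function.mem_support] at hσ
    constructor
    · intro h
      refine ⟨h, ?_⟩
      by_contra h3
      push Not at h3
      rw [hr σ h3] at hσ
      simp at hσ
    · exact fun h => h.1
  rw [h1, h2]
  have h3 : Ioc s₀ (s₀ + D) = (fun x : ℝ => s₀ + D * x) '' Ioc (0 : ℝ) 1 := by
    ext y
    constructor
    · intro hy
      refine ⟨(y - s₀) / D, ⟨div_pos (by linarith [hy.1]) hD, ?_⟩, ?_⟩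
      · rw [div_le_one hD]
        linarith [hy.2]
      · simp only
        field_simp
        ring
    · rintro ⟨x, hx, rfl⟩
      simp only
      have h4 : 0 < D * x := mul_pos hD hx.1
      have h5 : D * x ≤ D * 1 := mul_le_mul_of_nonneg_left hx.2 hD.le
      exact ⟨by linarith, by linarith⟩
  have hinj : Function.Injective fun x : ℝ => s₀ + D * x := by
    intro a b h
    simp only at h
    have : D * a = D * b := by linarith
    exact mul_left_cancel₀ hD.ne' this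
  rw [h3, finsum_mem_image hinj.injOn]

variable {P : Type} {q : P → ℝ} {B : P → ℝ[X]} {δ β : ℝ} {N : ℕ}

theorem lterm_eq (q : P → ℝ) (B : P → ℝ[X]) {s₀ γ T D : ℝ} (hD : 0 < D) (x : P × ℕ) :
    lterm q B s₀ γ T x = -((cq q B s₀ x : ℂ) *
      Complex.exp ((γ * (fq q D x / (D * T)) : ℝ) * Complex.I) * (om (fq q D x / (D * T)) : ℂ)) := by
  have h1 : fq q D x / (D * T) = (x.2 + 1) * Real.log (q x.1) / T := by
    unfold fq
    rw [mul_div_mul_left _ _ hD.ne']
  rw [h1]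
  unfold lterm cq om
  have h2 : pw (B x.1) (x.2 + 1) * q x.1 ^ (-((x.2 + 1) * s₀)) /
      ((x.2 + 1) * Real.Gamma (1 + (x.2 + 1) * Real.log (q x.1) / T)) =
      pw (B x.1) (x.2 + 1) * q x.1 ^ (-((x.2 + 1) * s₀)) / (x.2 + 1) *
        (Real.Gamma (1 + (x.2 + 1) * Real.log (q x.1) / T))⁻¹ := by
    rw [div_mul_eq_div_div, div_eq_mul_inv _ (Real.Gamma _)]
  rw [h2]
  push_cast
  ring

/-- the rotated sum -/
noncomputable def lsum (q : P → ℝ) (B : P → ℝ[X]) (s₀ γ T : ℝ) : ℂ := ∑' x, lterm q B s₀ γ T x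

theorem lsum_eq (q : P → ℝ) (B : P → ℝ[X]) {s₀ γ T D : ℝ} (hD : 0 < D) :
    lsum q B s₀ γ T = -cmean (fq q D) (cq q B s₀) γ (D * T) := by
  unfold lsum cmean
  rw [← tsum_neg]
  exact tsum_congr fun x => lterm_eq q B hD x

/-- bound for one term -/
theorem LData.norm_lterm_le (E : LData q B δ β N) {s₀ γ T D a : ℝ} (hD : 0 < D) (hT : 0 < T)
    (ha : 0 ≤ a) (x : P × ℕ) :
    ‖lterm q B s₀ γ T x‖ ≤ (Real.exp (Real.exp (a * (D * T))) + 1) *
      (|cq q B s₀ x| * Real.exp (-(a * fq q D x))) := by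
  have hf := E.fq_nonneg hD.le x
  have hDT : 0 < D * T := mul_pos hD hT
  have h1 : 0 ≤ fq q D x / (D * T) := div_nonneg hf hDT.le
  have h2 := om_le (a := a * (D * T)) (by positivity) h1
  have h3 : a * (D * T) * (fq q D x / (D * T)) = a * fq q D x := by
    have h4 : D * T ≠ 0 := hDT.ne'
    calc a * (D * T) * (fq q D x / (D * T)) = a * ((D * T) * (fq q D x / (D * T))) := by ring
      _ = a * fq q D x := by rw [mul_div_cancel₀ _ h4]
  rw [h3] at h2
  rw [lterm_eq q B hD x, norm_neg, norm_mul, norm_mul, Complex.norm_exp_ofReal_mul_I, mul_one,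
    Complex.norm_real, Complex.norm_real, Real.norm_eq_abs, Real.norm_eq_abs,
    abs_of_nonneg (om_nonneg h1)]
  calc |cq q B s₀ x| * om (fq q D x / (D * T)) ≤
      |cq q B s₀ x| * ((Real.exp (Real.exp (a * (D * T))) + 1) * Real.exp (-(a * fq q D x))) :=
        mul_le_mul_of_nonneg_left h2 (abs_nonneg _)
    _ = _ := by ring

theorem LData.lsummable (E : LData q B δ β N) (s₀ γ : ℝ) {T : ℝ} (hT : 0 < T) :
    Summable fun x => ‖lterm q B s₀ γ T x‖ := by
  set D : ℝ := |δ + β - s₀| + 1 with hD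
  have hD0 : 0 < D := by positivity
  have hD1 : δ < 1 * D + s₀ - β := by
    have := le_abs_self (δ + β - s₀)
    rw [hD]
    linarith
  exact Summable.of_nonneg_of_le (fun x => norm_nonneg _)
    (fun x => E.norm_lterm_le (γ := γ) hD0 hT zero_le_one x) ((E.summable hD1).mul_left _)

/-- **the law** -/
theorem LData.law [Countable P] (E : LData q B δ β N) {F : ℂ → ℂ} {s₀ σ₁ : ℝ}
    (hmer : ∀ x : ℝ, s₀ ≤ x → MeromorphicAt F (x : ℂ))
    (hF : ∀ s : ℂ, σ₁ < s.re → F s = LF q B s) {γ : ℝ} (hγ : Real.pi / 2 < γ) :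
    {σ : ℝ | s₀ ≤ σ ∧ meromorphicOrderAt F (σ : ℂ) ≠ 0}.Finite ∧
    ∃ (m : ℤ) (l : ℝ), meromorphicOrderAt F (s₀ : ℂ) = m ∧
      meromorphicTrailingCoeffAt F (s₀ : ℂ) = l ∧ l ≠ 0 ∧
      (fun T : ℝ => lsum q B s₀ γ T - (m * (Real.log T - Lam γ) - Real.log |l| +
        Real.pi * excess F s₀ * Complex.I)) =O[atTop] (fun T : ℝ => 1 / T) := by
  set D : ℝ := |β + δ - s₀| + |σ₁ - s₀| + 1 with hDdef
  have hD0 : 0 < D := by positivity
  have hD1 : β + δ ≤ s₀ + D := by
    have h1 := le_abs_self (β + δ - s₀)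
    have h2 := abs_nonneg (σ₁ - s₀)
    rw [hDdef]
    linarith
  have hD2 : σ₁ ≤ s₀ + D := by
    have h1 := le_abs_self (σ₁ - s₀)
    have h2 := abs_nonneg (β + δ - s₀)
    rw [hDdef]
    linarith
  have M := E.mdata hD0 hD1 hD2 hmer hF
  have hright : ∀ σ : ℝ, s₀ + D < σ → meromorphicOrderAt F (σ : ℂ) = 0 := by
    intro σ hσ
    have h1 := M.order_right (w := (((σ - s₀) / D : ℝ) : ℂ)) (by
      rw [Complex.ofReal_re, one_lt_div hD0]
      linarith)
    rw [order_scale F hD0.ne'] at h1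
    have h2 : s₀ + D * ((σ - s₀) / D) = σ := by
      field_simp
      ring
    rwa [h2] at h1
  have hfin : {σ : ℝ | s₀ ≤ σ ∧ meromorphicOrderAt F (σ : ℂ) ≠ 0}.Finite := by
    refine (M.finite_zeros.image fun x : ℝ => s₀ + D * x).subset ?_
    rintro σ ⟨h1, h2⟩
    refine ⟨(σ - s₀) / D, ⟨⟨div_nonneg (by linarith) hD0.le, ?_⟩, ?_⟩, ?_⟩
    · rw [div_le_iff₀ hD0]
      by_contra h3
      push Not at h3
      exact h2 (hright σ (by linarith))
    · rw [order_scale F hD0.ne']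
      have h3 : s₀ + D * ((σ - s₀) / D) = σ := by
        field_simp
        ring
      rwa [h3]
    · simp only
      field_simp
      ring
  refine ⟨hfin, ?_⟩
  have htop := M.order_ne_top (x := 0) ⟨le_rfl, by norm_num⟩
  rw [order_scale F hD0.ne', mul_zero, add_zero] at htop
  obtain ⟨m, hm⟩ := WithTop.ne_top_iff_exists.1 htop
  have hm0 : meromorphicOrderAt (fun w : ℂ => F (s₀ + D * w)) 0 = m := by
    have := order_scale F (s₀ := s₀) hD0.ne' 0
    rw [mul_zero, add_zero, Complex.ofReal_zero] at this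
    rw [this]
    exact hm.symm
  obtain ⟨r₁, C, T₀, hr, hi, hC, hT₀, h⟩ := mdata_rot M hm0 hγ
  rw [coeff_scale hD0.ne' (hmer s₀ le_rfl) hm.symm] at hr
  rw [excess_eq hD0 hright] at hi
  have hDc : (D : ℂ) ≠ 0 := by exact_mod_cast hD0.ne'
  -- remove the scale
  set r₀ : ℂ := r₁ - m * Real.log D with hr₀def
  have hpow : (D : ℂ) ^ m = Complex.exp (m * Real.log D) := by
    rw [Complex.exp_int_mul, ← Complex.ofReal_exp, Real.exp_log hD0]
  have hr' : Complex.exp r₀ = meromorphicTrailingCoeffAt F (s₀ : ℂ) := by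
    rw [hr₀def, Complex.exp_sub, hr, ← hpow]
    exact mul_div_cancel_left₀ _ (zpow_ne_zero _ hDc)
  have hi' : r₀.im = -Real.pi * excess F s₀ := by
    rw [hr₀def, Complex.sub_im, hi]
    have : ((m : ℂ) * Real.log D).im = 0 := by
      have h1 : ((m : ℂ) * Real.log D) = ((m * Real.log D : ℝ) : ℂ) := by push_cast; rfl
      rw [h1, Complex.ofReal_im]
    rw [this]
    ring
  set l : ℂ := meromorphicTrailingCoeffAt F (s₀ : ℂ) with hl
  have hl0 : l ≠ 0 := by rw [← hr']; exact Complex.exp_ne_zero _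
  have hlr : l = (((-1 : ℝ) ^ (excess F s₀) * Real.exp r₀.re : ℝ) : ℂ) := by
    have h1 : r₀ = (r₀.re : ℂ) + (excess F s₀ : ℂ) * (-(Real.pi * Complex.I)) := by
      apply Complex.ext
      · simp
      · rw [hi']; simp; ring
    rw [← hr']
    nth_rewrite 1 [h1]
    rw [Complex.exp_add, Complex.exp_int_mul, Complex.exp_neg, Complex.exp_pi_mul_I]
    push_cast
    norm_num
    ring
  have hlre : l = ((l.re : ℝ) : ℂ) := by
    rw [hlr, Complex.ofReal_re]
  have hlabs : Real.log |l.re| = r₀.re := by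
    have h1 : |l.re| = Real.exp r₀.re := by
      rw [hlr, Complex.ofReal_re, abs_mul, Real.abs_exp]
      have : |(-1 : ℝ) ^ (excess F s₀)| = 1 := by
        rw [abs_zpow]; simp
      rw [this, one_mul]
    rw [h1, Real.log_exp]
  have hlre0 : l.re ≠ 0 := by
    intro h1
    rw [h1, Complex.ofReal_zero] at hlre
    exact hl0 hlre
  have hr₀ : -r₀ = -(Real.log |l.re| : ℂ) + Real.pi * excess F s₀ * Complex.I := by
    rw [hlabs]
    apply Complex.ext
    · simp
    · rw [Complex.neg_im, hi']; simp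
  have hO : (fun T : ℝ => lsum q B s₀ γ T - (m * (Real.log T - Lam γ) - r₀)) =O[atTop]
      (fun T : ℝ => 1 / T) := by
    refine Asymptotics.IsBigO.of_bound (C / D) ?_
    filter_upwards [eventually_ge_atTop (T₀ / D), eventually_gt_atTop 0] with T hT hT1
    have hT2 : T₀ ≤ D * T := by
      rw [div_le_iff₀ hD0] at hT
      linarith [mul_comm D T]
    have h5 := h (D * T) hT2
    rw [lsum_eq q B hD0, Real.norm_eq_abs, abs_of_pos (by positivity : 0 < 1 / T)]
    have h6 : (m : ℂ) * (Real.log (D * T) - Lam γ) - r₁ = m * (Real.log T - Lam γ) - r₀ := by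
      rw [Real.log_mul hD0.ne' hT1.ne', hr₀def]
      push_cast
      ring
    rw [h6] at h5
    refine h5.trans (le_of_eq ?_)
    field_simp
  refine ⟨m, l.re, hm.symm, hlre, hlre0, ?_⟩
  refine hO.congr_left fun T => ?_
  linear_combination (-1 : ℂ) * hr₀

end Pool.Agent.TH652.COL
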