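import Pool.Agent.W187.UR.NF

/-! Euler factors of arbitrary degree: power sums of the inverse roots. -/

set_option autoImplicit false

namespace Pool.Agent.TH652.COL

open Filter Topology Set Polynomial

/-- The `k`-th power sum of the inverses of the complex roots of the real polynomial `B`. -/
noncomputable def pw (B : ℝ[X]) (k : ℕ) : ℝ :=
  (((B.map (algebraMap ℝ ℂ)).roots.map fun ρ => (ρ⁻¹) ^ k).sum).re

theorem log_sum {z : ℂ} (hz : ‖z‖ < 1) :
    HasSum (fun n : ℕ => z ^ (n + 1) / ((n + 1 : ℕ) : ℂ)) (-Complex.log (1 - z)) := by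
  have := Complex.hasSum_taylorSeries_neg_log hz
  rw [← hasSum_nat_add_iff' 1] at this
  simpa using this

/-- the logarithm of a product of linear factors -/
theorem multiset_log (s : Multiset ℂ) (z : ℂ) (hs : ∀ a ∈ s, ‖a * z‖ < 1) :
    HasSum (fun n : ℕ => (s.map fun a => a ^ (n + 1)).sum * z ^ (n + 1) / ((n + 1 : ℕ) : ℂ))
      (s.map fun a => -Complex.log (1 - a * z)).sum ∧
    Complex.exp (s.map fun a => -Complex.log (1 - a * z)).sum =
      ((s.map fun a => 1 - a * z).prod)⁻¹ := by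
  induction s using Multiset.induction_on with
  | empty => simp
  | cons a s ih =>
    obtain ⟨h1, h2⟩ := ih fun b hb => hs b (Multiset.mem_cons_of_mem hb)
    have ha := hs a (Multiset.mem_cons_self a s)
    have hne : 1 - a * z ≠ 0 := by
      intro h
      rw [sub_eq_zero] at h
      rw [← h] at ha
      simp at ha
    refine ⟨?_, ?_⟩
    · simp only [Multiset.map_cons, Multiset.sum_cons]
      refine ((log_sum ha).add h1).congr_fun ?_
      intro n
      rw [mul_pow]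
      ring
    · simp only [Multiset.map_cons, Multiset.sum_cons, Multiset.prod_cons]
      rw [Complex.exp_add, Complex.exp_neg, Complex.exp_log hne, h2, mul_inv]

/-- a complex polynomial with constant term one is the product of `1 - z / ρ` -/
theorem eval_eq_prod (p : ℂ[X]) (h0 : p.coeff 0 = 1) (z : ℂ) :
    p.eval z = (p.roots.map fun ρ => 1 - ρ⁻¹ * z).prod := by
  have hp : p ≠ 0 := by
    rintro rfl
    simp at h0
  have hroot : ∀ ρ ∈ p.roots, ρ ≠ 0 := by
    rintro ρ hρ rfl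
    rw [Polynomial.mem_roots hp, Polynomial.IsRoot.def, ← Polynomial.coeff_zero_eq_eval_zero,
      h0] at hρ
    exact one_ne_zero hρ
  have hev : ∀ x : ℂ, p.eval x = p.leadingCoeff * (p.roots.map fun ρ => x - ρ).prod := by
    intro x
    have h1 := (IsAlgClosed.splits p).eq_prod_roots
    conv_lhs => rw [h1]
    rw [Polynomial.eval_mul, Polynomial.eval_C, Polynomial.eval_multiset_prod, Multiset.map_map]
    simp
  have h1 : (1 : ℂ) = p.leadingCoeff * (p.roots.map fun ρ => 0 - ρ).prod := by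
    rw [← hev 0, ← Polynomial.coeff_zero_eq_eval_zero, h0]
  have h2 : (p.roots.map fun ρ => z - ρ).prod =
      (p.roots.map fun ρ => 0 - ρ).prod * (p.roots.map fun ρ => 1 - ρ⁻¹ * z).prod := by
    rw [← Multiset.prod_map_mul]
    refine congrArg Multiset.prod (Multiset.map_congr rfl fun ρ hρ => ?_)
    have := hroot ρ hρ
    field_simp
    ring
  rw [hev, h2, ← mul_assoc, ← h1, one_mul]

theorem roots_conj (B : ℝ[X]) :
    (B.map (algebraMap ℝ ℂ)).roots.map (starRingEnd ℂ) = (B.map (algebraMap ℝ ℂ)).roots := by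
  have h1 : (B.map (algebraMap ℝ ℂ)).map (starRingEnd ℂ) = B.map (algebraMap ℝ ℂ) := by
    rw [Polynomial.map_map]
    congr 1
    ext x
    simp
  have h2 := (IsAlgClosed.splits (B.map (algebraMap ℝ ℂ))).roots_map (starRingEnd ℂ)
  rw [h1] at h2
  exact h2.symm

/-- the power sums are real -/
theorem pw_eq (B : ℝ[X]) (k : ℕ) :
    (pw B k : ℂ) = ((B.map (algebraMap ℝ ℂ)).roots.map fun ρ => (ρ⁻¹) ^ k).sum := by
  set S := ((B.map (algebraMap ℝ ℂ)).roots.map fun ρ => (ρ⁻¹) ^ k).sum with hS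
  have h1 : (starRingEnd ℂ) S = S := by
    rw [hS, map_multiset_sum, Multiset.map_map]
    conv_rhs => rw [← roots_conj, Multiset.map_map]
    refine congrArg Multiset.sum (Multiset.map_congr rfl fun ρ _ => ?_)
    simp
  have h2 := Complex.conj_eq_iff_re.1 h1
  unfold pw
  rw [← hS]
  exact h2

theorem abs_pw_le (B : ℝ[X]) {N : ℕ} (hN : B.natDegree ≤ N) {R : ℝ} (hR : 0 < R)
    (hr : ∀ ρ : ℂ, (B.map (algebraMap ℝ ℂ)).IsRoot ρ → R⁻¹ ≤ ‖ρ‖) (k : ℕ) :
    |pw B k| ≤ N * R ^ k := by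
  have h1 : |pw B k| ≤ ‖((B.map (algebraMap ℝ ℂ)).roots.map fun ρ => (ρ⁻¹) ^ k).sum‖ := by
    rw [← pw_eq, Complex.norm_real, Real.norm_eq_abs]
  refine h1.trans ?_
  have h2 : ∀ s : Multiset ℂ, (∀ ρ ∈ s, R⁻¹ ≤ ‖ρ‖) →
      ‖(s.map fun ρ => (ρ⁻¹) ^ k).sum‖ ≤ s.card * R ^ k := by
    intro s
    induction s using Multiset.induction_on with
    | empty => simp
    | cons a s ih =>
      intro hs
      rw [Multiset.map_cons, Multiset.sum_cons, Multiset.card_cons]
      have h3 := ih fun ρ hρ => hs ρ (Multiset.mem_cons_of_mem hρ)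
      have h4 := hs a (Multiset.mem_cons_self a s)
      have h5 : ‖(a⁻¹) ^ k‖ ≤ R ^ k := by
        rw [norm_pow, norm_inv]
        have h6 : (0 : ℝ) < R⁻¹ := by positivity
        have : ‖a‖⁻¹ ≤ R := by
          rw [inv_le_comm₀ (lt_of_lt_of_le h6 h4) hR]
          exact h4
        gcongr
      have h7 := norm_add_le ((a⁻¹) ^ k) ((s.map fun ρ => (ρ⁻¹) ^ k).sum)
      push_cast
      linarith
  have h3 : (B.map (algebraMap ℝ ℂ)).roots.card ≤ N := by
    refine (Polynomial.card_roots' _).trans ?_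
    rw [Polynomial.natDegree_map]
    exact hN
  refine (h2 _ fun ρ hρ => hr ρ (Polynomial.isRoot_of_mem_roots hρ)).trans ?_
  have : ((B.map (algebraMap ℝ ℂ)).roots.card : ℝ) ≤ N := by exact_mod_cast h3
  gcongr

/-- **the Euler factor as the exponential of the power sums** -/
theorem factor (B : ℝ[X]) (h0 : B.coeff 0 = 1) {z : ℂ}
    (hz : ∀ ρ : ℂ, (B.map (algebraMap ℝ ℂ)).IsRoot ρ → ‖z‖ < ‖ρ‖) :
    HasSum (fun n : ℕ => (pw B (n + 1) : ℂ) * z ^ (n + 1) / ((n + 1 : ℕ) : ℂ))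
      (∑' n : ℕ, (pw B (n + 1) : ℂ) * z ^ (n + 1) / ((n + 1 : ℕ) : ℂ)) ∧
    Complex.exp (∑' n : ℕ, (pw B (n + 1) : ℂ) * z ^ (n + 1) / ((n + 1 : ℕ) : ℂ)) =
      ((B.map (algebraMap ℝ ℂ)).eval z)⁻¹ := by
  set p := B.map (algebraMap ℝ ℂ) with hp
  have hc : p.coeff 0 = 1 := by rw [hp, Polynomial.coeff_map, h0]; simp
  have h1 := multiset_log (p.roots.map fun ρ => ρ⁻¹) z (by
    intro a ha
    obtain ⟨ρ, hρ, rfl⟩ := Multiset.mem_map.1 ha
    have h2 := hz ρ (Polynomial.isRoot_of_mem_roots hρ)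
    have h3 : 0 < ‖ρ‖ := lt_of_le_of_lt (norm_nonneg _) h2
    rw [norm_mul, norm_inv, inv_mul_lt_one₀ h3]
    exact h2)
  simp only [Multiset.map_map, Function.comp_def] at h1
  have h2 : ∀ n : ℕ, (pw B (n + 1) : ℂ) * z ^ (n + 1) / ((n + 1 : ℕ) : ℂ) =
      (p.roots.map fun ρ => (ρ⁻¹) ^ (n + 1)).sum * z ^ (n + 1) / ((n + 1 : ℕ) : ℂ) := by
    intro n
    rw [pw_eq]
  simp only [h2]
  refine ⟨h1.1.summable.hasSum, ?_⟩
  rw [h1.1.tsum_eq, h1.2, eval_eq_prod p hc]

end Pool.Agent.TH652.COL
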